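import Pool.Agent.W668.Shai.C01
import Pool.Agent.W668.Shai.Key2

/-!
# MP_4297ae_an: surjective homomorphisms from `B(C(βℕ ∖ ℕ))` have large targets

If there is a surjective homomorphism from the bounded operators on `C(βℕ ∖ ℕ)` onto the bounded
operators on a nonzero Banach space `Y`, then every dense subset of `Y` has at least continuum many
elements, and the dual of `Y` has at least `2 ^ 𝔠` elements.
-/

set_option autoImplicit false

open Filter Topology Set
open scoped BoundedContinuousFunction Cardinal

namespace Pool.Agent.Results.MP_4297ae_an.LargeTargets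

open Pool.Agent.H148R3 Pool.Agent.W668.Shai

universe v w

/-- The remainder `βℕ ∖ ℕ`: the nonprincipal ultrafilters on `ℕ`; `βℕ` is the compact space of all
ultrafilters on `ℕ`. -/
abbrev Remainder : Type := {u : Ultrafilter ℕ // ∀ n, u ≠ pure n}

lemma le_cof (u : Remainder) : ((u : Ultrafilter ℕ) : Filter ℕ) ≤ cofinite := by
  rcases u.1.le_cofinite_or_eq_pure with h | ⟨n, hn⟩
  · exact h
  · exact absurd hn (u.2 n)

/-- the continuous self-map of the remainder induced by a finite-to-one map -/
def ind (σ : ℕ → ℕ) (hσ : Tendsto σ cofinite cofinite) : C(Remainder, Remainder) where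
  toFun u := ⟨u.1.map σ, fun n hn => by
    have h1 : ((u.1.map σ : Ultrafilter ℕ) : Filter ℕ) ≤ cofinite :=
      (Filter.map_mono (le_cof u)).trans hσ
    rw [hn] at h1
    have h3 : ({n}ᶜ : Set ℕ) ∈ ((pure n : Ultrafilter ℕ) : Filter ℕ) :=
      h1 (Set.finite_singleton n).compl_mem_cofinite
    exact h3 rfl⟩
  continuous_toFun := by
    refine Continuous.subtype_mk ?_ _
    refine continuous_generateFrom_iff.2 ?_
    rintro _ ⟨s, rfl⟩
    exact (ultrafilter_isOpen_basic (σ ⁻¹' s)).preimage continuous_subtype_val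

/-- the map onto the line with number `n` of `ℕ × ℕ` -/
def sig (n k : ℕ) : ℕ := Nat.pair n (k - n)

/-- the folding map `(a, b) ↦ a + b` -/
def rho (m : ℕ) : ℕ := (Nat.unpair m).1 + (Nat.unpair m).2

lemma tendsto_of_fib (f : ℕ → ℕ) (h : ∀ b, (f ⁻¹' {b}).Finite) : Tendsto f cofinite cofinite := by
  intro s hs
  rw [mem_map, mem_cofinite, ← Set.preimage_compl]
  exact (mem_cofinite.1 hs).preimage' fun b _ => h b

lemma sig_tendsto (n : ℕ) : Tendsto (sig n) cofinite cofinite := by
  refine tendsto_of_fib _ fun y => ?_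
  refine (Set.finite_Iic (n + (Nat.unpair y).2)).subset fun k hk => ?_
  have hk' : sig n k = y := hk
  rw [← hk', sig, Nat.unpair_pair, Set.mem_Iic]
  simp only
  omega

lemma rho_tendsto : Tendsto rho cofinite cofinite := by
  refine tendsto_of_fib _ fun y => ?_
  refine (Set.finite_Iio ((y + 1) ^ 2)).subset fun m hm => ?_
  have hm' : rho m = y := hm
  rw [Set.mem_Iio, ← Nat.pair_unpair m]
  refine (Nat.pair_lt_max_add_one_sq _ _).trans_le ?_
  unfold rho at hm'
  gcongr
  omega

lemma rho_sig (n : ℕ) (u : Remainder) :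
    ind rho rho_tendsto (ind (sig n) (sig_tendsto n) u) = u := by
  apply Subtype.ext
  show (u.1.map (sig n)).map rho = u.1
  rw [Ultrafilter.map_map]
  apply Ultrafilter.coe_injective
  show Filter.map (rho ∘ sig n) (u.1 : Filter ℕ) = u.1
  have h1 : (rho ∘ sig n) =ᶠ[(u.1 : Filter ℕ)] id := by
    have h2 : {k : ℕ | n ≤ k} ∈ (u.1 : Filter ℕ) := by
      apply le_cof u
      rw [mem_cofinite]
      refine (Set.finite_Iio n).subset fun k hk => ?_
      by_contra h
      have h' : n ≤ k := not_lt.1 h
      exact hk h'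
    filter_upwards [h2] with k hk
    have hk' : n ≤ k := hk
    simp only [Function.comp, rho, sig, Nat.unpair_pair, id]
    omega
  rw [Filter.map_congr h1, Filter.map_id]

section
variable {𝕜 : Type w} [RCLike 𝕜] {E : Type v} [NormedAddCommGroup E] [NormedSpace 𝕜 E]

/-- composition with a continuous self-map -/
noncomputable def part (g : C(Remainder, Remainder)) :
    (Remainder →ᵇ E) →L[𝕜] (Remainder →ᵇ E) :=
  LinearMap.mkContinuous
    { toFun := fun x => x.compContinuous g
      map_add' := fun _ _ => rfl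
      map_smul' := fun _ _ => rfl } 1 (by
    intro x
    rw [one_mul]
    exact (BoundedContinuousFunction.norm_le (norm_nonneg _)).2 fun γ => x.norm_coe_le_norm _)

lemma part_norm (g : C(Remainder, Remainder)) :
    ‖(part g : (Remainder →ᵇ E) →L[𝕜] (Remainder →ᵇ E))‖ ≤ 1 :=
  LinearMap.mkContinuous_norm_le _ zero_le_one _

/-- the union of the lines with numbers in `S`, in the remainder -/
def lines (S : Set ℕ) : Set Remainder := {u | {m : ℕ | (Nat.unpair m).1 ∈ S} ∈ u.1}

lemma lines_clopen (S : Set ℕ) : IsClopen (lines S) :=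
  ⟨(ultrafilter_isClosed_basic _).preimage continuous_subtype_val,
    (ultrafilter_isOpen_basic _).preimage continuous_subtype_val⟩

open Classical in
/-- copies of a function on the lines with numbers in `S` -/
noncomputable def copy (S : Set ℕ) : (Remainder →ᵇ E) →L[𝕜] (Remainder →ᵇ E) :=
  LinearMap.mkContinuous
    { toFun := fun x => BoundedContinuousFunction.ofNormedAddCommGroup
        (fun u => if u ∈ lines S then x (ind rho rho_tendsto u) else 0)
        (by
          have h := Continuous.piecewise (s := lines S)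
            (f := fun u => x (ind rho rho_tendsto u)) (g := fun _ => (0 : E))
            (by
              intro a ha
              rw [(lines_clopen S).frontier_eq] at ha
              exact absurd ha (Set.notMem_empty a))
            (x.continuous.comp (ind rho rho_tendsto).continuous) continuous_const
          exact h) ‖x‖
        (by
          intro u
          by_cases hu : u ∈ lines S
          · rw [if_pos hu]
            exact x.norm_coe_le_norm _
          · rw [if_neg hu, norm_zero]
            exact norm_nonneg _)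
      map_add' := fun x y => by
        ext u
        show (if u ∈ lines S then (x + y) (ind rho rho_tendsto u) else 0) =
          (if u ∈ lines S then x (ind rho rho_tendsto u) else 0) +
            (if u ∈ lines S then y (ind rho rho_tendsto u) else 0)
        by_cases hu : u ∈ lines S
        · simp only [if_pos hu]
          rfl
        · simp only [if_neg hu, add_zero]
      map_smul' := fun c x => by
        ext u
        show (if u ∈ lines S then (c • x) (ind rho rho_tendsto u) else 0) =
          c • (if u ∈ lines S then x (ind rho rho_tendsto u) else 0)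
        by_cases hu : u ∈ lines S
        · simp only [if_pos hu]
          rfl
        · simp only [if_neg hu, smul_zero] } 1 (by
    intro x
    rw [one_mul]
    refine (BoundedContinuousFunction.norm_le (norm_nonneg _)).2 fun u => ?_
    show ‖if u ∈ lines S then x (ind rho rho_tendsto u) else 0‖ ≤ _
    by_cases hu : u ∈ lines S
    · rw [if_pos hu]
      exact x.norm_coe_le_norm _
    · rw [if_neg hu, norm_zero]
      exact norm_nonneg _)

open Classical in
lemma part_copy (n : ℕ) (S : Set ℕ) :
    (part (ind (sig n) (sig_tendsto n)) * copy S : (Remainder →ᵇ E) →L[𝕜] (Remainder →ᵇ E)) =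
      if n ∈ S then 1 else 0 := by
  have hmem : ∀ u : Remainder, ind (sig n) (sig_tendsto n) u ∈ lines S ↔ n ∈ S := by
    intro u
    have h1 : (sig n) ⁻¹' {m : ℕ | (Nat.unpair m).1 ∈ S} = {k : ℕ | n ∈ S} := by
      ext k
      simp only [Set.mem_preimage, sig]
      show (Nat.unpair (Nat.pair n (k - n))).1 ∈ S ↔ n ∈ S
      rw [Nat.unpair_pair]
    show (sig n) ⁻¹' {m : ℕ | (Nat.unpair m).1 ∈ S} ∈ u.1 ↔ n ∈ S
    rw [h1]
    by_cases hn : n ∈ S
    · simp only [hn, iff_true]
      exact Filter.univ_mem
    · have h0 : {k : ℕ | n ∈ S} = ∅ := by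
        ext k
        exact ⟨fun h => absurd h hn, fun h => absurd h (Set.notMem_empty k)⟩
      rw [h0]
      exact ⟨fun h => absurd h Ultrafilter.empty_notMem, fun h => absurd h hn⟩
  ext x u
  have h2 : (part (ind (sig n) (sig_tendsto n)) * copy S :
      (Remainder →ᵇ E) →L[𝕜] (Remainder →ᵇ E)) x u =
      if ind (sig n) (sig_tendsto n) u ∈ lines S then
        x (ind rho rho_tendsto (ind (sig n) (sig_tendsto n) u)) else 0 := rfl
  rw [h2, rho_sig]
  by_cases hn : n ∈ S
  · rw [if_pos ((hmem u).2 hn), if_pos hn]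
    rfl
  · rw [if_neg fun h => hn ((hmem u).1 h), if_neg hn]
    rfl

end

/-- **Main theorem.**  Let `𝕜 = ℝ` or `ℂ`, `E` a Banach space (`E = 𝕜` is the case of the question),
`Y` a nonzero Banach space, and let `φ` be a surjective algebra homomorphism (multiplicative linear
map, neither continuity nor unitality is assumed) from the bounded operators on
`C(βℕ ∖ ℕ, E)` onto the bounded operators on `Y`.  Then every dense subset of `Y` has at least
continuum many elements, and the dual of `Y` has at least `2 ^ 𝔠` elements. -/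
theorem result (𝕜 : Type w) [RCLike 𝕜] (E : Type v) [NormedAddCommGroup E] [NormedSpace 𝕜 E]
    [CompleteSpace E] (Y : Type) [NormedAddCommGroup Y] [NormedSpace 𝕜 Y] [CompleteSpace Y]
    [Nontrivial Y]
    (φ : ((Remainder →ᵇ E) →L[𝕜] (Remainder →ᵇ E)) →ₙₐ[𝕜] (Y →L[𝕜] Y))
    (hφ : Function.Surjective φ) :
    (∀ D : Set Y, Dense D → 𝔠 ≤ #D) ∧ 2 ^ Cardinal.lift.{w} 𝔠 ≤ #(StrongDual 𝕜 Y) := by
  classical
  set ψ : ((Remainder →ᵇ E) →L[𝕜] (Remainder →ᵇ E)) →ₐ[𝕜] (Y →L[𝕜] Y) := toAlg φ hφ with hψdef
  have hψ : Function.Surjective ψ := hφ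
  obtain ⟨K, hK0, hK⟩ := auto_cont ψ hψ
  obtain ⟨y0, hy0⟩ := exists_ne (0 : Y)
  let V : ℕ → ((Remainder →ᵇ E) →L[𝕜] (Remainder →ᵇ E)) := fun n =>
    part (ind (sig n) (sig_tendsto n))
  have hV : ∀ n, ‖ψ (V n)‖ ≤ K := fun n =>
    calc ‖ψ (V n)‖ ≤ K * ‖V n‖ := hK _
      _ ≤ K * 1 := mul_le_mul_of_nonneg_left (part_norm _) hK0
      _ = K := mul_one K
  let y : Set ℕ → Y := fun S => ψ (copy S) y0
  have hy : ∀ n S, ψ (V n) (y S) = if n ∈ S then y0 else 0 := by
    intro n S
    have h1 : ψ (V n) (y S) = ψ (V n * copy S) y0 := by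
      rw [map_mul]
      rfl
    rw [h1, show V n * copy S = if n ∈ S then 1 else 0 from part_copy n S]
    by_cases hn : n ∈ S
    · rw [if_pos hn, if_pos hn, map_one]
      rfl
    · rw [if_neg hn, if_neg hn, map_zero]
      rfl
  constructor
  · intro D hD
    have hy0' : 0 < ‖y0‖ := norm_pos_iff.2 hy0
    set δ : ℝ := ‖y0‖ / (2 * (K + 1)) with hδ
    have hK1 : 0 < K + 1 := by positivity
    have hδ0 : 0 < δ := by positivity
    choose d hdD hd using fun S => Metric.dense_iff.1 hD (y S) δ hδ0
    have hinj : Function.Injective (fun S => (⟨d S, (hd S)⟩ : D)) := by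
      intro S S' h
      have h1 : d S = d S' := congrArg Subtype.val h
      by_contra hne
      obtain ⟨i, hi⟩ : ∃ i, ¬ (i ∈ S ↔ i ∈ S') := by
        by_contra hcon
        push Not at hcon
        exact hne (Set.ext hcon)
      have h2 : ‖y S - y S'‖ < 2 * δ := by
        have e1 := hdD S
        have e2 := hdD S'
        rw [Metric.mem_ball, dist_eq_norm] at e1 e2
        rw [← h1] at e2
        have e3 : y S - y S' = (d S - y S') - (d S - y S) := by abel
        rw [e3]
        linarith [norm_sub_le (d S - y S') (d S - y S)]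
      have h3 : ‖y0‖ ≤ ‖ψ (V i) (y S - y S')‖ := by
        rw [map_sub, hy, hy]
        by_cases h4 : i ∈ S
        · have h5 : i ∉ S' := fun h5 => hi ⟨fun _ => h5, fun _ => h4⟩
          rw [if_pos h4, if_neg h5, sub_zero]
        · have h5 : i ∈ S' := by
            by_contra h5
            exact hi ⟨fun h => absurd h h4, fun h => absurd h h5⟩
          rw [if_neg h4, if_pos h5, zero_sub, norm_neg]
      have h4 : ‖ψ (V i) (y S - y S')‖ ≤ (K + 1) * ‖y S - y S'‖ :=
        ((ψ (V i)).le_opNorm _).trans
          (mul_le_mul_of_nonneg_right ((hV i).trans (by linarith)) (norm_nonneg _))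
      have h6 : (K + 1) * ‖y S - y S'‖ < (K + 1) * (2 * δ) := mul_lt_mul_of_pos_left h2 hK1
      have h7 : (K + 1) * (2 * δ) = ‖y0‖ := by
        rw [hδ]
        field_simp
      linarith
    have h8 := Cardinal.mk_le_of_injective hinj
    rwa [Cardinal.mk_set, Cardinal.mk_nat, Cardinal.two_power_aleph0] at h8
  · -- the functionals
    obtain ⟨f0', -, hf0'⟩ := exists_dual_vector 𝕜 y0 (norm_ne_zero_iff.2 hy0)
    have hn0 : ((‖y0‖ : ℝ) : 𝕜) ≠ 0 := by simpa using hy0
    set f0 : StrongDual 𝕜 Y := ((‖y0‖ : ℝ) : 𝕜)⁻¹ • f0' with hf0def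
    have hf0 : f0 y0 = 1 := by
      rw [hf0def, smul_apply, hf0', smul_eq_mul, inv_mul_cancel₀ hn0]
    set W : ℕ → StrongDual 𝕜 Y := fun n => f0.comp (ψ (V n)) with hWdef
    have hWn : ∀ n, ‖W n‖ ≤ ‖f0‖ * K := by
      intro n
      refine (ContinuousLinearMap.opNorm_comp_le _ _).trans ?_
      gcongr
      exact hV n
    have hwy : ∀ S n, W n (y S) = if n ∈ S then 1 else 0 := by
      intro S n
      show f0 (ψ (V n) (y S)) = _
      rw [hy]
      by_cases hn : n ∈ S
      · rw [if_pos hn, if_pos hn, hf0]
      · rw [if_neg hn, if_neg hn, map_zero]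
    have hΦ : ∀ u : Ultrafilter ℕ, ∃ χ : StrongDual 𝕜 Y,
        ∀ v : Y, Tendsto (fun n => W n v) u (𝓝 (χ v)) := by
      intro u
      have hcomp := WeakDual.isCompact_closedBall (𝕜 := 𝕜) (E := Y) 0 (‖f0‖ * K)
      set W' : ℕ → WeakDual 𝕜 Y := fun n => StrongDual.toWeakDual (W n) with hW'
      have hmem : ∀ n, W' n ∈ WeakDual.toStrongDual ⁻¹'
          Metric.closedBall (0 : StrongDual 𝕜 Y) (‖f0‖ * K) := by
        intro n
        rw [mem_preimage, mem_closedBall_zero_iff]
        exact hWn n
      obtain ⟨χ, -, hχ⟩ := hcomp.ultrafilter_le_nhds (u.map W') (by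
        rw [le_principal_iff]
        exact Filter.mem_map.2 (univ_mem' hmem))
      refine ⟨WeakDual.toStrongDual χ, fun v => ?_⟩
      have h3 : Tendsto W' u (𝓝 χ) := hχ
      exact ((WeakDual.eval_continuous v).tendsto χ).comp h3
    choose χ hχ using hΦ
    have hinj : Function.Injective (fun F : Set (Set ℕ) => χ (uE F)) := by
      intro F F' hEE
      have h2 : χ (uE F) = χ (uE F') := hEE
      apply uE_inj
      by_contra hne
      obtain ⟨S, hS, hS'⟩ : ∃ S, S ∈ uE F ∧ S ∉ uE F' := by
        by_contra hcon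
        push Not at hcon
        apply hne
        have h4 : ((uE F' : Ultrafilter ℕ) : Filter ℕ) ≤ (uE F : Filter ℕ) := fun S hS => hcon S hS
        exact (Ultrafilter.coe_le_coe.1 h4).symm
      have h5 : Tendsto (fun n => W n (y S)) (uE F) (𝓝 1) := by
        refine tendsto_const_nhds.congr' ?_
        filter_upwards [hS] with n hn
        rw [hwy, if_pos hn]
      have h6 : Tendsto (fun n => W n (y S)) (uE F') (𝓝 0) := by
        refine tendsto_const_nhds.congr' ?_
        filter_upwards [Ultrafilter.compl_mem_iff_notMem.2 hS'] with n hn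
        rw [hwy, if_neg hn]
      have h7 := tendsto_nhds_unique h5 (hχ (uE F) (y S))
      have h8 := tendsto_nhds_unique h6 (hχ (uE F') (y S))
      rw [h2, ← h8] at h7
      exact one_ne_zero h7
    have h9 := Cardinal.mk_le_of_injective (hinj.comp
      (ULift.down_injective : Function.Injective (ULift.down : ULift.{w} (Set (Set ℕ)) → _)))
    rw [Cardinal.mk_uLift, Cardinal.mk_set, Cardinal.mk_set, Cardinal.mk_nat,
      Cardinal.two_power_aleph0] at h9
    simpa using h9

end Pool.Agent.Results.MP_4297ae_an.LargeTargets
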